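import Pool.Agent.V8H91.HT.Fin

/-!
# The largest tangent spaces of the smoothable component for `d ≤ n + 1`

Let `H_(d,n)` be the smoothable component of the Hilbert scheme of `d` points in affine `n`-space over
an algebraically closed field of any characteristic, and `t(d,n)` the largest dimension of a Zariski
tangent space of `H_(d,n)` (with its reduced structure). For all `n` and all `d ≥ 3`
`t(d,n) ≤ n d + (d choose 2) (d - 3)`, with equality if `d ≤ n + 1`: then
`t(d,n) = n d + d (d - 1) (d - 3) / 2`. In this case the maximum is attained at the square-zero algebra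
`k[x_1, ..., x_(d-1)] / (x_1, ..., x_(d-1)) ^ 2`, and this point lies on all irreducible components of the
Hilbert scheme. So for `3 ≤ d ≤ n + 1` question Q1 is answered by the formula, and question Q2 is
answered positively.

**The definitions** (`Pool/Agent/V8H91/HT/Defs.lean` and `Hilb.lean`). A family `B` of `d` polynomials, one
of which is `1`, defines an open chart of the Hilbert scheme: the ideals `I` such that `B` is a basis of
`S / I`. Its coordinates, the coefficients of the multiplication table `x_l B_i = ∑_j c (l, i, j) B_j`,
embed the chart as a closed subscheme in affine space. The Zariski topology on the set `Hilb k d n` of the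
closed points: a set is closed if in each chart it is defined by polynomials in the coordinates. The
smoothable component is the closure of the set of the radical ideals. Its tangent space at a point
with coordinates `c` consists of the directions in which the derivatives at `c` of all polynomials vanish
which vanish at the radical ideals of the chart.

**The proof.** A tangent vector `v` defines a linear map `ψ : S → A = S / I` (the derivative of the
reduction modulo `I`) which satisfies `ψ (g h) = h ψ (g) + g ψ (h) + f (g, h)` for a symmetric cocycle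
`f : A × A → A`. Adding to `ψ` an arbitrary linear map `η : A / k → A` changes `f` by a coboundary.
A cocycle with values in the line `k · 1` vanishes as `d ≥ 3`. So the pair `(v, η)` is determined by the
cocycle modulo `k · 1` and by the `n` elements `ψ (x_l) + η (x_l)` of `A`. This is the upper bound.
For the lower bound one takes the curves `s ↦` the ideal of the points `0`, `s P_1, ..., s P_(d-1)`
(moved a little in the remaining directions) for all bases `P_1, ..., P_(d-1)` and computes the span of
their tangent vectors. For the components: if `B` is a basis of `A = S / I` one moves the first `d - 1`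
variables in `A` on lines to the elements of `B`, the others to `0`, and then scales the variables; these
families of partially defined maps move each irreducible component into itself.
-/

set_option autoImplicit false

namespace Pool.Agent.Results.MP_9d305a_ag.LargeAmbientSpace

open MvPolynomial Pool.Agent.V8H91.HT

/-- The smoothable component `H_(d,n)`: the closure of the set of the radical ideals of colength `d`. -/
def smoothableComponent (k : Type) [Field k] (d n : ℕ) : Set (Hilb k d n) :=
  closure {I | I.1.IsRadical}

/-- The dimensions of the tangent spaces of `H_(d,n)` at its points `I`, with coordinates `c` in the chart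
of `B`. -/
def tangentDims (k : Type) [Field k] (d n : ℕ) : Set ℕ :=
  {m | ∃ I ∈ smoothableComponent k d n, ∃ (B : Fin d → Poly k n) (c : Ix n d → k), (∃ i, B i = 1) ∧
    IsChart B I.1 ∧ HasCoords B I.1 c ∧ m = Module.finrank k (tangent B c)}

/-- The tangent space of `H_(d,n)` at `I` has dimension `m`. -/
def HasTangentDim {k : Type} [Field k] {d n : ℕ} (I : Hilb k d n) (m : ℕ) : Prop :=
  ∃ (B : Fin d → Poly k n) (c : Ix n d → k), (∃ i, B i = 1) ∧
    IsChart B I.1 ∧ HasCoords B I.1 c ∧ m = Module.finrank k (tangent B c)

/-- (1) For `d ≥ 3` all tangent spaces of `H_(d,n)` have dimension at most `n d + (d choose 2) (d - 3)`.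
(2) If moreover `d ≤ n + 1` this is the largest dimension `t(d,n)`.
(3) In this case it is attained at a point of `H_(d,n)` which lies on all irreducible components of the
Hilbert scheme, an ideal which contains all products of two variables. -/
theorem result (k : Type) [Field k] [IsAlgClosed k] (d n : ℕ) (hd : 3 ≤ d) :
    (∀ t ∈ tangentDims k d n, t ≤ n * d + d.choose 2 * (d - 3)) ∧
    (d ≤ n + 1 → IsGreatest (tangentDims k d n) (n * d + d.choose 2 * (d - 3)) ∧
      ∃ I ∈ smoothableComponent k d n, HasTangentDim I (n * d + d.choose 2 * (d - 3)) ∧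
        (∀ C ∈ irreducibleComponents (Hilb k d n), I ∈ C) ∧ ∀ i j, X i * X j ∈ I.1) := by
  have hch : 2 * d.choose 2 = d * (d - 1) := by
    rw [Nat.choose_two_right, Nat.mul_div_cancel' (Nat.even_mul_pred_self d).two_dvd]
  have hup : ∀ t ∈ tangentDims k d n, t ≤ n * d + d.choose 2 * (d - 3) := by
    rintro t ⟨I, -, B, c, ⟨i, hi⟩, hB, hI, rfl⟩
    have h := finrank_le hi hB hI hd
    obtain ⟨e, rfl⟩ : ∃ e, d = e + 3 := ⟨d - 3, by omega⟩
    have e1 : e + 3 - 1 = e + 2 := by omega
    have e2 : e + 3 - 3 = e := by omega
    rw [e1] at h hch
    rw [e2]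
    have e3 : (e + 3).choose 2 * (e + 2) = (e + 3).choose 2 * e + 2 * (e + 3).choose 2 := by ring
    rw [e3, hch] at h
    have e4 : (e + 2) * (e + 3) = (e + 3) * (e + 2) := mul_comm _ _
    rw [e4] at h
    omega
  refine ⟨hup, fun hn => ?_⟩
  have key : ∃ I ∈ smoothableComponent k d n, HasTangentDim I (n * d + d.choose 2 * (d - 3)) ∧
      (∀ C ∈ irreducibleComponents (Hilb k d n), I ∈ C) ∧ ∀ i j, X i * X j ∈ I.1 := by
    obtain ⟨r, rfl⟩ : ∃ r, d = r + 1 := ⟨d - 1, by omega⟩
    obtain ⟨q, rfl⟩ : ∃ q, n = r + q := ⟨n - r, by omega⟩
    refine ⟨zeroPt k r q, ?_, ⟨B0 k r q, c0 k r q, ⟨0, B0_zero⟩, chart_zero, coords_zero, ?_⟩,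
      fun C hC => zero_mem_all hC, fun i j => ?_⟩
    · exact (mem_closure_iff_smoothable ⟨0, B0_zero⟩ (I := zeroPt k r q) chart_zero coords_zero).2
        mem_smoothable
    · rw [finrank_zero (by omega)]
      obtain ⟨e, rfl⟩ : ∃ e, r = e + 2 := ⟨r - 2, by omega⟩
      have e1 : e + 2 + 1 - 1 = e + 2 := by omega
      have e2 : e + 2 + 1 - 3 = e := by omega
      rw [e1] at hch
      rw [e2]
      have e3 : (e + 2 + 1).choose 2 * (e + 2) =
          (e + 2 + 1).choose 2 * e + 2 * (e + 2 + 1).choose 2 := by ring
      rw [e3, hch]
      ring
    · change X i * X j ∈ RingHom.ker (ph k r q)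
      rw [RingHom.mem_ker, map_mul]
      refine Fin.addCases (fun i' => ?_) (fun i' => ?_) i
      · refine Fin.addCases (fun j' => ?_) (fun j' => ?_) j
        · rw [ph_castAdd, ph_castAdd, TrivSqZeroExt.inr_mul_inr]
        · rw [ph_natAdd, mul_zero]
      · rw [ph_natAdd, zero_mul]
  refine ⟨⟨?_, fun t ht => hup t ht⟩, key⟩
  obtain ⟨I, h1, ⟨B, c, h2, h3, h4, h5⟩, -, -⟩ := key
  exact ⟨I, h1, B, c, h2, h3, h4, h5⟩

end Pool.Agent.Results.MP_9d305a_ag.LargeAmbientSpace
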